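import Mathlib
import Pool.Agent.Lib.helper4.Simon

set_option autoImplicit false

namespace Pool.Agent.Results.MP_b3099b_gt.Regular

/-- `Y` is semistratifiable: there are open sets `G F n` (`F` closed, `n : ℕ`) with
`⋂ n, G F n = F`, monotone in `F`. -/
def Semistratifiable (Y : Type) [TopologicalSpace Y] : Prop :=
  ∃ G : Set Y → ℕ → Set Y, (∀ F : Set Y, IsClosed F → ∀ n, IsOpen (G F n)) ∧
    (∀ F : Set Y, IsClosed F → ⋂ n, G F n = F) ∧
    (∀ F K : Set Y, IsClosed F → IsClosed K → F ⊆ K → ∀ n, G F n ⊆ G K n)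

theorem result : ∃ (Y : Type) (_ : TopologicalSpace Y), Countable Y ∧ T3Space Y ∧
    FrechetUrysohnSpace Y ∧ Semistratifiable Y ∧
    ∀ (X : Type) [TopologicalSpace X] [FirstCountableTopology X] (f : X → Y),
      Continuous f → IsClosedMap f → ¬ Function.Surjective f := by
  obtain ⟨t, h1, h2, h3⟩ := Pool.Agent.Lib.helper4.Simon.exists_space
  exact ⟨_, t, inferInstance, h1, h2, Pool.Agent.Lib.helper4.Simon.semistrat _, h3⟩

end Pool.Agent.Results.MP_b3099b_gt.Regular
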